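import Pool.Agent.H.MP_f310dc_lc.D

namespace Pool.Agent.Results.MP_f310dc_lc.Yes
open Pool.Agent.H.MP_f310dc_lc

theorem result (A : Str) : (CondM A ∧ CondS A) ↔
    ((∃ (G X : Type) (_ : Group G) (_ : Finite G) (_ : Finite X) (_ : MulAction G X),
      Inter A (perm G X)) ∨ Inter A P1) :=
  main A

end Pool.Agent.Results.MP_f310dc_lc.Yes
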